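import Pool.Agent.Q240.EX.Stm2

set_option autoImplicit false
set_option maxHeartbeats 1000000

/-! # Division of a transform with control of the small part (the statement `S_DivK`) -/

open Complex Filter Topology Set MeasureTheory Metric
open Pool.Agent.Y23 (TT Fa)

namespace Pool.Agent.Q176.EXD

/-- the function with transform `1` at `w0` -/
noncomputable def chi (w0 : ℂ) (x : ℝ) : ℂ := (1 / 2 : ℂ) * (Y23.G.F.box 1 x * cexp (-w0 * x))

lemma Fa_chi (w0 : ℂ) : Fa 1 (chi w0) :=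
  (Y23.G.F.Fa_box.mul_bdd (g := fun x : ℝ => cexp (-w0 * x)) (by fun_prop)).smul (1 / 2 : ℂ)

lemma TT_chi (w0 w : ℂ) : TT (chi w0) w = (1 / 2 : ℂ) * TT (Y23.G.F.box 1) (-w0 + w) := by
  unfold chi
  rw [Y23.TT_smul, Y23.TT_mul_exp]

lemma TT_chi_self (w0 : ℂ) : TT (chi w0) w0 = 1 := by
  rw [TT_chi, neg_add_cancel]
  unfold TT Y23.G.F.box
  simp only [zero_mul, Complex.exp_zero, mul_one]
  rw [integral_indicator measurableSet_Icc]
  simp only [integral_const, Measure.real, Measure.restrict_apply_univ, Real.volume_Icc]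
  rw [ENNReal.toReal_ofReal (by norm_num)]
  norm_num

lemma chi_bound {w0 : ℂ} (h0 : w0.re = 0) (w : ℂ) (hw : |w.re| ≤ 1) :
    (1 + |w.im - w0.im|) * ‖TT (chi w0) w‖ ≤ 6 := by
  rw [TT_chi, norm_mul]
  have h1 := Y23.G.F.TT_box_le2 (a := 1) one_pos (-w0 + w)
  have e1 : (-w0 + w).im = w.im - w0.im := by simp; ring
  have e2 : (-w0 + w).re = w.re := by simp [h0]
  rw [e1, e2, one_mul] at h1
  have h2 : Real.exp |w.re| ≤ 3 := by
    have := Real.exp_le_exp.2 hw
    linarith [Real.exp_one_lt_d9]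
  have h3 : ‖(1 / 2 : ℂ)‖ = 1 / 2 := by norm_num
  rw [h3]
  nlinarith

lemma Hd_chi {w0 : ℂ} (h0 : w0.re = 0) {a : ℝ} (ha : 1 ≤ a) : Y23.Hd a (chi w0) := by
  have h : Y23.G.Hd a (chi w0) := by
    refine Y23.G.F.Hd_of_bound ((Fa_chi w0).mono ha) (C := 6) (c := w0.im) fun v => ?_
    have := chi_bound h0 (v * I) (by simp)
    simpa using this
  exact h

lemma chi_bound2 {w0 : ℂ} (h0 : w0.re = 0) (w : ℂ) (hw : |w.re| ≤ 1) :
    ‖TT (chi w0) w‖ ≤ 12 * (1 + |w0.im|) / (1 + ‖w‖) := by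
  rw [le_div_iff₀ (by positivity)]
  have h1 := chi_bound h0 w hw
  have h2 : 1 + ‖w‖ ≤ 2 * (1 + |w.im|) := by
    have := Complex.norm_le_abs_re_add_abs_im w
    have := abs_nonneg w.im
    linarith
  have h3 : 1 + |w.im| ≤ (1 + |w0.im|) * (1 + |w.im - w0.im|) := by
    have h4 : |w.im| ≤ |w.im - w0.im| + |w0.im| := by
      have := abs_add_le (w.im - w0.im) w0.im
      simpa using this
    nlinarith [mul_nonneg (abs_nonneg w0.im) (abs_nonneg (w.im - w0.im))]
  calc ‖TT (chi w0) w‖ * (1 + ‖w‖) ≤ ‖TT (chi w0) w‖ * (2 * ((1 + |w0.im|) * (1 + |w.im - w0.im|))) :=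
        mul_le_mul_of_nonneg_left (by linarith) (norm_nonneg _)
    _ = 2 * (1 + |w0.im|) * ((1 + |w.im - w0.im|) * ‖TT (chi w0) w‖) := by ring
    _ ≤ 2 * (1 + |w0.im|) * 6 := mul_le_mul_of_nonneg_left h1 (by positivity)
    _ = _ := by ring

lemma diff_dslope {P : ℂ → ℂ} (hP : Differentiable ℂ P) (z : ℂ) : Differentiable ℂ (dslope P z) := by
  intro w
  exact (((Complex.differentiableOn_dslope (c := z) (s := univ) univ_mem).2 hP.differentiableOn) w (mem_univ w)).differentiableAt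
    univ_mem

lemma mul_dslope {P : ℂ → ℂ} {z : ℂ} (hP : P z = 0) (w : ℂ) : (w - z) * dslope P z w = P w := by
  have := sub_smul_dslope P z w
  rw [hP, sub_zero, smul_eq_mul] at this
  exact this

theorem divK : Pool.Agent.Q240.EX.S_DivK := by
  intro w0 h0
  set C₁ : ℝ := 12 * (1 + |w0.im|) with hC₁
  have hC0 : 0 ≤ C₁ := by positivity
  refine ⟨4 * (1 + C₁), by positivity, fun a K F E D ha hK hF hE hD hFT hE0 hDb => ?_⟩
  have ha0 : 0 < a := by linarith
  have hχ := Hd_chi h0 ha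
  have hDw0 : ‖D w0‖ ≤ K := by
    refine (hDb w0 (by rw [h0]; simp)).trans ?_
    exact div_le_self hK (by linarith [norm_nonneg w0])
  -- the modified function
  have hF1 : Y23.Hd a (fun x => F x - D w0 * chi w0 x) := hF.sub (hχ.smul (D w0))
  have hF1T : ∀ w, TT (fun x => F x - D w0 * chi w0 x) w = TT F w - D w0 * TT (chi w0) w := by
    intro w
    rw [Y23.TT_sub hF.1 (hχ.smul (D w0)).1, Y23.TT_smul]
  have hF10 : TT (fun x => F x - D w0 * chi w0 x) w0 = 0 := by
    rw [hF1T, TT_chi_self, hFT, hE0]; ring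
  obtain ⟨F', hF', hF'T, -⟩ := Y23.Hd.div ha0 hF1 w0 hF10
  -- the small part
  set P : ℂ → ℂ := fun w => D w - D w0 * TT (chi w0) w with hP
  have hPd : Differentiable ℂ P := hD.sub ((Y23.differentiable_TT (Fa_chi w0)).const_mul _)
  have hP0 : P w0 = 0 := by
    simp only [hP]
    rw [TT_chi_self]; ring
  have hPb : ∀ w : ℂ, |w.re| ≤ 1 → ‖P w‖ ≤ (1 + C₁) * K / (1 + ‖w‖) := by
    intro w hw
    have h1 := hDb w hw
    have h2 := chi_bound2 h0 w hw
    have h3 : ‖D w0 * TT (chi w0) w‖ ≤ K * (C₁ / (1 + ‖w‖)) := by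
      rw [norm_mul]
      exact mul_le_mul hDw0 h2 (norm_nonneg _) hK
    calc ‖P w‖ ≤ ‖D w‖ + ‖D w0 * TT (chi w0) w‖ := norm_sub_le _ _
      _ ≤ K / (1 + ‖w‖) + K * (C₁ / (1 + ‖w‖)) := add_le_add h1 h3
      _ = _ := by ring
  have hCs : 0 ≤ (1 + C₁) * K := by positivity
  have hdP := mul_dslope hP0
  have hdE := mul_dslope hE0
  refine ⟨F', dslope E w0, dslope P w0, hF', diff_dslope hE w0, diff_dslope hPd w0, fun w => ?_, hdE, fun w hw => ?_⟩
  · -- equality
    have key : ∀ w, w ≠ w0 → TT F' w = dslope E w0 w + dslope P w0 w := by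
      intro w hw
      have h1 : (w - w0) * TT F' w = (w - w0) * (dslope E w0 w + dslope P w0 w) := by
        rw [hF'T, hF1T, mul_add, hdP, hdE, hFT]
        simp only [hP]
        ring
      exact mul_left_cancel₀ (sub_ne_zero.2 hw) h1
    have hd1 : Continuous (TT F') := (Y23.differentiable_TT hF'.1).continuous
    have hd2 : Continuous (fun w => dslope E w0 w + dslope P w0 w) :=
      (diff_dslope hE w0).continuous.add (diff_dslope hPd w0).continuous
    have h1 : TT F' = fun w => dslope E w0 w + dslope P w0 w :=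
      Continuous.ext_on (s := {w0}ᶜ) (dense_compl_singleton w0) hd1 hd2 fun w hw => key w hw
    exact congrFun h1 w
  · -- the bound
    have e4 : 4 * (1 + C₁) * K / (1 + ‖w‖) = 4 * ((1 + C₁) * K / (1 + ‖w‖)) := by ring
    rw [e4]
    have hq : 0 ≤ (1 + C₁) * K / (1 + ‖w‖) := by positivity
    rcases le_total (1 / 2) ‖w - w0‖ with h1 | h1
    · have h3 : ‖w - w0‖ * ‖dslope P w0 w‖ = ‖P w‖ := by rw [← norm_mul, hdP]
      have h4 := hPb w hw
      have h5 : ‖dslope P w0 w‖ ≤ 2 * ‖P w‖ := by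
        rw [← h3]
        nlinarith [norm_nonneg (dslope P w0 w)]
      linarith
    · -- maximum principle
      have h2 : ∀ u ∈ sphere w0 (1 / 2), ‖dslope P w0 u‖ ≤ 4 * ((1 + C₁) * K / (1 + ‖w‖)) := by
        intro u hu
        rw [mem_sphere, dist_eq_norm] at hu
        have h3 : ‖u - w0‖ * ‖dslope P w0 u‖ = ‖P u‖ := by rw [← norm_mul, hdP u]
        rw [hu] at h3
        have hure : |u.re| ≤ 1 := by
          have h4 := Complex.abs_re_le_norm (u - w0)
          rw [hu, Complex.sub_re, h0, sub_zero] at h4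
          linarith
        have h4 := hPb u hure
        have him : 1 + ‖w‖ ≤ 2 * (1 + ‖u‖) := by
          have h6 : ‖w - u‖ ≤ 1 := by
            calc ‖w - u‖ = ‖(w - w0) - (u - w0)‖ := by congr 1; ring
              _ ≤ ‖w - w0‖ + ‖u - w0‖ := norm_sub_le _ _
              _ ≤ 1 := by rw [hu]; linarith
          have h7 : ‖w‖ ≤ ‖w - u‖ + ‖u‖ := by
            have := norm_add_le (w - u) u
            simpa using this
          linarith [norm_nonneg u]
        have h5 : ‖dslope P w0 u‖ = 2 * ‖P u‖ := by linarith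
        rw [h5]
        have h6 : (1 + C₁) * K / (1 + ‖u‖) ≤ 2 * ((1 + C₁) * K / (1 + ‖w‖)) := by
          rw [mul_div_assoc', div_le_div_iff₀ (by positivity) (by positivity)]
          calc (1 + C₁) * K * (1 + ‖w‖) ≤ (1 + C₁) * K * (2 * (1 + ‖u‖)) := mul_le_mul_of_nonneg_left him hCs
            _ = _ := by ring
        linarith
      have hb : Bornology.IsBounded (ball w0 (1 / 2)) := isBounded_ball
      have hfr : ∀ u ∈ frontier (ball w0 (1 / 2)), ‖dslope P w0 u‖ ≤ 4 * ((1 + C₁) * K / (1 + ‖w‖)) := by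
        intro u hu
        rw [frontier_ball w0 (by norm_num)] at hu
        exact h2 u hu
      have hcl : w ∈ closure (ball w0 (1 / 2)) := by
        rw [closure_ball w0 (by norm_num), mem_closedBall, dist_eq_norm]
        exact h1
      exact Complex.norm_le_of_forall_mem_frontier_norm_le hb (diff_dslope hPd w0).diffContOnCl hfr hcl

end Pool.Agent.Q176.EXD
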