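import Pool.Agent.Q240.EX.Stm2

set_option autoImplicit false
set_option maxHeartbeats 1000000

/-! # Trial functions concentrated at one zero (the statement `S_RateG`) -/

open Complex Filter Topology Set MeasureTheory
open Pool.Agent.Y23 (TT Fa Zt mu IsZ)
open Pool.Agent.H24R2.JP (XX)

namespace Pool.Agent.Q176.EXD

/-- the entire factor of `XX` at a zero -/
lemma XX_factor (w0 : ℂ) : ∃ g : ℂ → ℂ, Differentiable ℂ g ∧ g w0 ≠ 0 ∧
    ∀ w, XX w = (w - w0) ^ (analyticOrderNatAt XX w0) * g w := by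
  have htop := Y23.XX_ne_top w0
  obtain ⟨h, hh, hne, hev⟩ := ((Y23.XX_an w0).analyticOrderAt_ne_top).1 htop
  set k := analyticOrderNatAt XX w0 with hk
  classical
  set g : ℂ → ℂ := fun w => if w = w0 then h w0 else XX w / (w - w0) ^ k with hg
  have hgev : g =ᶠ[𝓝 w0] h := by
    filter_upwards [hev] with w hw
    by_cases hww : w = w0
    · simp only [hg]; rw [if_pos hww, hww]
    · simp only [hg]; rw [if_neg hww, hw, smul_eq_mul, mul_div_cancel_left₀ _ (pow_ne_zero _ (sub_ne_zero.2 hww))]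
  have hXd : Differentiable ℂ XX := fun w => (Y23.XX_an w).differentiableAt
  have hgw0 : g w0 = h w0 := if_pos rfl
  refine ⟨g, fun w => ?_, ?_, fun w => ?_⟩
  · by_cases hww : w = w0
    · rw [hww]
      exact hh.differentiableAt.congr_of_eventuallyEq hgev
    · have h1 : DifferentiableAt ℂ (fun w => XX w / (w - w0) ^ k) w :=
        (hXd w).div (by fun_prop) (pow_ne_zero _ (sub_ne_zero.2 hww))
      refine h1.congr_of_eventuallyEq ?_
      filter_upwards [isOpen_ne.mem_nhds hww] with u hu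
      simp only [hg]
      exact if_neg hu
  · rw [hgw0]
    exact hne
  · by_cases hww : w = w0
    · have h1 := hev.self_of_nhds
      rw [hww, hgw0]
      exact h1
    · simp only [hg]
      rw [if_neg hww, mul_div_cancel₀ _ (pow_ne_zero _ (sub_ne_zero.2 hww))]

/-- iterated division -/
lemma iter (hdiv : Pool.Agent.Q240.EX.S_DivK) {w0 : ℂ} (h0 : w0.re = 0) : ∃ C : ℝ, 0 < C ∧ ∀ (k : ℕ) (g B : ℂ → ℂ),
    Differentiable ℂ g → Differentiable ℂ B → ∀ (a K : ℝ) (F : ℝ → ℂ) (D : ℂ → ℂ), 1 ≤ a → 0 ≤ K → Y23.Hd a F →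
    Differentiable ℂ D → (∀ w, TT F w = B w * ((w - w0) ^ k * g w) + D w) →
    (∀ w : ℂ, |w.re| ≤ 1 → ‖D w‖ ≤ K / (1 + ‖w‖)) →
    ∃ (F' : ℝ → ℂ) (D' : ℂ → ℂ), Y23.Hd a F' ∧ (∀ w, TT F' w = B w * g w + D' w) ∧
      ∀ w : ℂ, |w.re| ≤ 1 → ‖D' w‖ ≤ C ^ k * K / (1 + ‖w‖) := by
  obtain ⟨C, hC, hd⟩ := hdiv w0 h0
  refine ⟨C, hC, fun k => ?_⟩
  induction k with
  | zero =>
    intro g B hg hB a K F D ha hK hF hD hFT hDb
    refine ⟨F, D, hF, fun w => ?_, fun w hw => ?_⟩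
    · rw [hFT w]; ring
    · have := hDb w hw
      simpa using this
  | succ k ih =>
    intro g B hg hB a K F D ha hK hF hD hFT hDb
    have hE : Differentiable ℂ (fun w => B w * ((w - w0) ^ (k + 1) * g w)) := by fun_prop
    obtain ⟨F1, E1, D1, hF1, hE1, hD1, hT1, hEE, hDb1⟩ := hd a K F (fun w => B w * ((w - w0) ^ (k + 1) * g w)) D ha hK hF
      hE hD hFT (by simp) hDb
    have hE1' : ∀ w, E1 w = B w * ((w - w0) ^ k * g w) := by
      have h1 : E1 = fun w => B w * ((w - w0) ^ k * g w) := by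
        refine Continuous.ext_on (s := {w0}ᶜ) (dense_compl_singleton w0) hE1.continuous ?_ fun w hw => ?_
        · have : Differentiable ℂ (fun w => B w * ((w - w0) ^ k * g w)) := by fun_prop
          exact this.continuous
        · have h2 := hEE w
          have h3 : w - w0 ≠ 0 := sub_ne_zero.2 hw
          apply mul_left_cancel₀ h3
          rw [h2]; ring
      exact congrFun h1
    obtain ⟨F', D', hF', hT', hb'⟩ := ih g B hg hB a (C * K) F1 D1 ha (by positivity) hF1 hD1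
      (fun w => by rw [hT1, hE1']) hDb1
    refine ⟨F', D', hF', hT', fun w hw => ?_⟩
    have := hb' w hw
    calc ‖D' w‖ ≤ C ^ k * (C * K) / (1 + ‖w‖) := this
      _ = _ := by ring

/-- large exponentials -/
lemma ev_exp {A δ : ℝ} (hδ : 0 < δ) : ∀ᶠ a : ℝ in atTop, A ≤ Real.exp (δ * Real.exp (2 * a)) := by
  have h1 : Tendsto (fun a : ℝ => Real.exp (δ * Real.exp (2 * a))) atTop atTop := by
    refine Real.tendsto_exp_atTop.comp (Tendsto.const_mul_atTop hδ (Real.tendsto_exp_atTop.comp ?_))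
    exact Tendsto.const_mul_atTop (by norm_num) tendsto_id
  exact h1.eventually_ge_atTop A

/-- the sum over the zeros -/
lemma SS_bound {G : ℝ → ℂ} {ρ0 : Zt} {M : ℝ} (h1 : ‖TT G ((ρ0 : ℂ) - 1 / 2)‖ = 1)
    (h2 : ∀ ρ : Zt, ρ ≠ ρ0 → ‖TT G ((ρ : ℂ) - 1 / 2)‖ ≤ M / (1 + ‖(ρ : ℂ) - 1 / 2‖)) :
    Y23.SS G ≤ (mu (ρ0 : ℂ) : ℝ) + M ^ 2 * ∑' ρ : Zt, (mu (ρ : ℂ) : ℝ) * (1 / (1 + ((ρ : ℂ).im - 0) ^ 2)) := by
  classical
  have hs := Y23.zsummable 0
  have hs2 := hs.mul_left (M ^ 2)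
  have hs1 : HasSum (fun ρ : Zt => if ρ = ρ0 then (mu (ρ0 : ℂ) : ℝ) else 0) (mu (ρ0 : ℂ) : ℝ) := hasSum_ite_eq ρ0 _
  have hb : ∀ ρ : Zt, (mu (ρ : ℂ) : ℝ) * ‖TT G ((ρ : ℂ) - 1 / 2)‖ ^ 2 ≤
      (if ρ = ρ0 then (mu (ρ0 : ℂ) : ℝ) else 0) + M ^ 2 * ((mu (ρ : ℂ) : ℝ) * (1 / (1 + ((ρ : ℂ).im - 0) ^ 2))) := by
    intro ρ
    by_cases h : ρ = ρ0
    · rw [if_pos h, h, h1]
      have : 0 ≤ M ^ 2 * ((mu (ρ0 : ℂ) : ℝ) * (1 / (1 + ((ρ0 : ℂ).im - 0) ^ 2))) := by positivity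
      linarith
    · rw [if_neg h, zero_add]
      have h3 := h2 ρ h
      have h4 : ‖TT G ((ρ : ℂ) - 1 / 2)‖ ^ 2 ≤ M ^ 2 * (1 / (1 + ((ρ : ℂ).im - 0) ^ 2)) := by
        refine (pow_le_pow_left₀ (norm_nonneg _) h3 2).trans ?_
        rw [div_pow, div_eq_mul_one_div]
        refine mul_le_mul_of_nonneg_left ?_ (sq_nonneg _)
        refine one_div_le_one_div_of_le (by positivity) ?_
        have h5 := Complex.abs_im_le_norm ((ρ : ℂ) - 1 / 2)
        have e : ((ρ : ℂ) - 1 / 2).im = (ρ : ℂ).im := by simp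
        rw [e] at h5
        have h6 := sq_abs (ρ : ℂ).im
        have h7 := abs_nonneg (ρ : ℂ).im
        have h8 := norm_nonneg ((ρ : ℂ) - 1 / 2)
        rw [sub_zero, ← h6]
        nlinarith
      calc _ ≤ (mu (ρ : ℂ) : ℝ) * (M ^ 2 * (1 / (1 + ((ρ : ℂ).im - 0) ^ 2))) :=
            mul_le_mul_of_nonneg_left h4 (Nat.cast_nonneg _)
        _ = _ := by ring
  have hsum : Summable (fun ρ : Zt => (mu (ρ : ℂ) : ℝ) * ‖TT G ((ρ : ℂ) - 1 / 2)‖ ^ 2) :=
    Summable.of_nonneg_of_le (fun ρ => by positivity) hb (hs1.summable.add hs2)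
  calc Y23.SS G ≤ ∑' ρ : Zt, ((if ρ = ρ0 then (mu (ρ0 : ℂ) : ℝ) else 0) +
          M ^ 2 * ((mu (ρ : ℂ) : ℝ) * (1 / (1 + ((ρ : ℂ).im - 0) ^ 2)))) :=
        hsum.tsum_le_tsum hb (hs1.summable.add hs2)
    _ = _ := by
        rw [hs1.summable.tsum_add hs2, hs1.tsum_eq, tsum_mul_left]

theorem rateG (hTri : Pool.Agent.Q240.EX.S_Tri) (hdiv : Pool.Agent.Q240.EX.S_DivK) : Pool.Agent.Q240.EX.S_RateG := by
  intro γ hγ hX c ε hc hε
  have hpi := Real.pi_pos
  have hpi3 := Real.pi_gt_three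
  set w0 : ℂ := I * γ with hw0
  have h0 : w0.re = 0 := by simp [hw0]
  have hre : (1 / 2 + w0 : ℂ).re = 1 / 2 := by simp [hw0]
  have hw0n : ‖w0‖ = |γ| := by simp [hw0]
  set k := analyticOrderNatAt XX w0 with hk
  obtain ⟨g, hg, hg0, hgX⟩ := XX_factor w0
  rw [← hk] at hgX
  have hZ : IsZ (1 / 2 + w0) := by
    rw [Y23.isZ_iff]
    have e : (1 / 2 + w0 - 1 / 2 : ℂ) = w0 := by ring
    rw [e]; exact hX
  set ρ0 : Zt := ⟨1 / 2 + w0, hZ⟩ with hρ0
  have hρ0v : ((ρ0 : Zt) : ℂ) - 1 / 2 = w0 := by simp only [hρ0]; ring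
  obtain ⟨C, hC, hit⟩ := iter hdiv h0
  -- the small parameter
  obtain ⟨η, hη0, hη1, hη2, hη3, hη4⟩ : ∃ η : ℝ, 0 < η ∧ η ≤ 1 ∧ 4 * η ≤ ε ∧ 8 * η ≤ 4 * Real.pi - c ∧ η * (|γ| + 1) ≤ 1 := by
    have p1 : 0 < ε / 4 := by positivity
    have p2 : 0 < (4 * Real.pi - c) / 8 := by linarith
    have p3 : 0 < 1 / (|γ| + 1) := by positivity
    refine ⟨min (min 1 (ε / 4)) (min ((4 * Real.pi - c) / 8) (1 / (|γ| + 1))), ?_, ?_, ?_, ?_, ?_⟩
    · exact lt_min (lt_min one_pos p1) (lt_min p2 p3)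
    · exact (min_le_left _ _).trans (min_le_left _ _)
    · have : min (min 1 (ε / 4)) (min ((4 * Real.pi - c) / 8) (1 / (|γ| + 1))) ≤ ε / 4 :=
        (min_le_left _ _).trans (min_le_right _ _)
      linarith
    · have : min (min 1 (ε / 4)) (min ((4 * Real.pi - c) / 8) (1 / (|γ| + 1))) ≤ (4 * Real.pi - c) / 8 :=
        (min_le_right _ _).trans (min_le_left _ _)
      linarith
    · have : min (min 1 (ε / 4)) (min ((4 * Real.pi - c) / 8) (1 / (|γ| + 1))) ≤ 1 / (|γ| + 1) :=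
        (min_le_right _ _).trans (min_le_right _ _)
      rwa [le_div_iff₀ (by positivity)] at this
  have hγη : |γ| ≤ 1 / η := by
    rw [le_div_iff₀ hη0]
    nlinarith [abs_nonneg γ]
  have hη5 : 0 ≤ 1 / η := by positivity
  set cg := ‖g w0‖ with hcg
  have hcg0 : 0 < cg := norm_pos_iff.2 hg0
  set S := ∑' ρ : Zt, (mu (ρ : ℂ) : ℝ) * (1 / (1 + ((ρ : ℂ).im - 0) ^ 2)) with hS
  have hS0 : 0 ≤ S := tsum_nonneg fun ρ => by positivity
  filter_upwards [hTri η hη0, eventually_ge_atTop 1, ev_exp (A := 2 * C ^ k / cg) (δ := 2 * Real.pi - 2 * η) (by linarith),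
    ev_exp (A := 2 * (‖g 0‖ + C ^ k) / cg) (δ := η) hη0,
    ev_exp (A := (2 * C ^ k / cg) ^ 2 * S) (δ := η) hη0] with a hT ha e1 e2 e3
  obtain ⟨T, B, D, hTH, hB, hD, hTT, hDb, hBl, hBu⟩ := hT
  set X := Real.exp (2 * a) with hXe
  have hX0 : 0 < X := Real.exp_pos _
  obtain ⟨F, D', hF, hFT, hDb'⟩ := hit k g B hg hB a (Real.exp (η * X)) T D ha (Real.exp_pos _).le hTH hD
    (fun w => by rw [hTT, hgX]) hDb
  set K := C ^ k * Real.exp (η * X) with hK
  have hK0 : 0 < K := by positivity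
  have hDK : ∀ w : ℂ, |w.re| ≤ 1 → ‖D' w‖ ≤ K := fun w hw =>
    (hDb' w hw).trans (div_le_self hK0.le (by linarith [norm_nonneg w]))
  -- the value at the zero
  have hlow : cg / 2 * Real.exp ((2 * Real.pi - η) * X) ≤ ‖TT F w0‖ := by
    have h1 : cg * Real.exp ((2 * Real.pi - η) * X) ≤ ‖B w0 * g w0‖ := by
      rw [norm_mul, mul_comm]
      exact mul_le_mul_of_nonneg_right (hBl γ hγη) hcg0.le
    have h2 : K ≤ cg / 2 * Real.exp ((2 * Real.pi - η) * X) := by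
      have h3 : Real.exp ((2 * Real.pi - η) * X) = Real.exp ((2 * Real.pi - 2 * η) * X) * Real.exp (η * X) := by
        rw [← Real.exp_add]; congr 1; ring
      rw [div_le_iff₀ hcg0] at e1
      rw [h3, hK]
      have h4 := Real.exp_pos (η * X)
      nlinarith
    have h3 := hDK w0 (by rw [h0]; simp)
    have h4 : ‖B w0 * g w0‖ ≤ ‖TT F w0‖ + ‖D' w0‖ := by
      have : B w0 * g w0 = TT F w0 - D' w0 := by rw [hFT]; ring
      rw [this]
      exact norm_sub_le _ _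
    linarith
  have hpos : 0 < ‖TT F w0‖ := lt_of_lt_of_le (by positivity) hlow
  have hne : TT F w0 ≠ 0 := norm_pos_iff.1 hpos
  have hexp := Real.exp_pos ((2 * Real.pi - η) * X)
  have hTG : ∀ w, TT (fun x => (TT F w0)⁻¹ * F x) w = (TT F w0)⁻¹ * TT F w := fun w => Y23.TT_smul _ _ _
  refine ⟨fun x => (TT F w0)⁻¹ * F x, hF.smul _, ?_, ?_, ?_⟩
  · rw [hTG, inv_mul_cancel₀ hne]
  · -- the value at the origin
    rw [hTG, norm_mul, norm_inv, inv_mul_le_iff₀ hpos]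
    have h1 : ‖TT F 0‖ ≤ (‖g 0‖ + C ^ k) * Real.exp ((2 * Real.pi + η) * X) := by
      rw [hFT]
      refine (norm_add_le _ _).trans ?_
      have h2 := hBu 0 (by rw [norm_zero]; exact hη5)
      have h3 := hDK 0 (by simp)
      have h4 : Real.exp (η * X) ≤ Real.exp ((2 * Real.pi + η) * X) := by
        apply Real.exp_le_exp.2
        nlinarith
      rw [norm_mul]
      have h5 : ‖B 0‖ * ‖g 0‖ ≤ Real.exp ((2 * Real.pi + η) * X) * ‖g 0‖ :=
        mul_le_mul_of_nonneg_right h2 (norm_nonneg _)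
      have h6 : K ≤ C ^ k * Real.exp ((2 * Real.pi + η) * X) := by
        rw [hK]
        exact mul_le_mul_of_nonneg_left h4 (by positivity)
      linarith
    have h7 : (‖g 0‖ + C ^ k) * Real.exp ((2 * Real.pi + η) * X) ≤
        cg / 2 * Real.exp ((2 * Real.pi - η) * X) * Real.exp (ε * X) := by
      rw [div_le_iff₀ hcg0] at e2
      have h8 : Real.exp ((2 * Real.pi - η) * X) * Real.exp (ε * X) = Real.exp ((2 * Real.pi + η) * X) * Real.exp ((ε - 2 * η) * X) := by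
        rw [← Real.exp_add, ← Real.exp_add]; congr 1; ring
      have h9 : Real.exp (η * X) ≤ Real.exp ((ε - 2 * η) * X) := by
        apply Real.exp_le_exp.2
        nlinarith
      have h10 : 2 * (‖g 0‖ + C ^ k) ≤ Real.exp ((ε - 2 * η) * X) * cg :=
        e2.trans (mul_le_mul_of_nonneg_right h9 hcg0.le)
      have h11 := Real.exp_pos ((2 * Real.pi + η) * X)
      rw [mul_assoc, h8]
      nlinarith
    calc ‖TT F 0‖ ≤ _ := h1
      _ ≤ _ := h7
      _ ≤ _ := mul_le_mul_of_nonneg_right hlow (Real.exp_pos _).le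
  · -- the sum over the zeros
    have hM : ∀ ρ : Zt, ρ ≠ ρ0 → ‖TT (fun x => (TT F w0)⁻¹ * F x) ((ρ : ℂ) - 1 / 2)‖ ≤
        (2 * C ^ k / cg * Real.exp (-((2 * Real.pi - 2 * η) * X))) / (1 + ‖(ρ : ℂ) - 1 / 2‖) := by
      intro ρ hρ
      have hρz : XX ((ρ : ℂ) - 1 / 2) = 0 := (Y23.isZ_iff _).1 ρ.2
      have hρne : (ρ : ℂ) - 1 / 2 - w0 ≠ 0 := by
        intro h
        apply hρ
        apply Subtype.ext
        have : (ρ : ℂ) = 1 / 2 + w0 := by linear_combination h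
        exact this
      have hgρ : g ((ρ : ℂ) - 1 / 2) = 0 := by
        rw [hgX] at hρz
        exact (mul_eq_zero.1 hρz).resolve_left (pow_ne_zero _ hρne)
      rw [hTG, norm_mul, norm_inv, inv_mul_le_iff₀ hpos, hFT, hgρ, mul_zero, zero_add]
      have h1 := hDb' ((ρ : ℂ) - 1 / 2) ((Y23.half_re ρ).trans (by norm_num))
      refine h1.trans ?_
      rw [mul_div_assoc']
      refine div_le_div_of_nonneg_right ?_ (by positivity)
      have h2 : K = cg / 2 * Real.exp ((2 * Real.pi - η) * X) * (2 * C ^ k / cg * Real.exp (-((2 * Real.pi - 2 * η) * X))) := by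
        have h3 : Real.exp (η * X) = Real.exp ((2 * Real.pi - η) * X) * Real.exp (-((2 * Real.pi - 2 * η) * X)) := by
          rw [← Real.exp_add]; congr 1; ring
        rw [hK, h3]
        field_simp
      rw [h2]
      exact mul_le_mul_of_nonneg_right hlow (by positivity)
    have h1 : ‖TT (fun x => (TT F w0)⁻¹ * F x) ((ρ0 : ℂ) - 1 / 2)‖ = 1 := by
      rw [hρ0v, hTG, inv_mul_cancel₀ hne, norm_one]
    have h2 := SS_bound h1 hM
    rw [← hS] at h2
    refine h2.trans ?_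
    have e5 : ((ρ0 : Zt) : ℂ) = 1 / 2 + I * γ := rfl
    rw [e5]
    refine add_le_add le_rfl ?_
    have h3 : (2 * C ^ k / cg * Real.exp (-((2 * Real.pi - 2 * η) * X))) ^ 2 * S =
        ((2 * C ^ k / cg) ^ 2 * S) * Real.exp (-((4 * Real.pi - 4 * η) * X)) := by
      rw [mul_pow, ← Real.exp_nat_mul]
      have : ((2 : ℕ) : ℝ) * -((2 * Real.pi - 2 * η) * X) = -((4 * Real.pi - 4 * η) * X) := by push_cast; ring
      rw [this]; ring
    rw [h3]
    calc ((2 * C ^ k / cg) ^ 2 * S) * Real.exp (-((4 * Real.pi - 4 * η) * X))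
        ≤ Real.exp (η * X) * Real.exp (-((4 * Real.pi - 4 * η) * X)) :=
          mul_le_mul_of_nonneg_right e3 (Real.exp_pos _).le
      _ = Real.exp (-((4 * Real.pi - 5 * η) * X)) := by
          rw [← Real.exp_add]; congr 1; ring
      _ ≤ _ := by
          apply Real.exp_le_exp.2
          nlinarith

end Pool.Agent.Q176.EXD
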